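import Pool.Agent.Y258.SD.CStmts

set_option autoImplicit false

/-! # Job C16: aligned levels which are not of corner type -/

namespace Pool.Agent.Y272.SD

open Finset Pool.Agent.H470D4 Pool.Agent.Y258

variable {q M B n : ℕ} [Fact q.Prime]

/-- all the coordinates of a level -/
def gg {n : ℕ} (l : Fin (n+2) → ℕ) (r : ℕ) : Option (Fin (n+2)) → ℕ := fun o => o.elim r l

lemma sum_gg (l : Fin (n+2) → ℕ) (r : ℕ) : ∑ o, gg l r o = ∑ a, l a + r := by
  rw [Fintype.sum_option]
  simp only [gg, Option.elim]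
  omega

/-- aligned, and not of corner type because of `o` -/
def NCo (c : Flg q M B n) (X : Fin (n+2) → ℕ → ZMod q) (Y : ℕ → ZMod q) (ω : Pth q B)
    (r β : ℕ) (l : Fin (n+2) → ℕ) (o : Option (Fin (n+2))) : Prop :=
  ∃ ν : Vec q M B, Agr0 c X Y ω l r ν ∧ xX M B X - ν ∈ Vb q M B (β+1) ∧
    uO c X Y (fun j => row M ω j (xX M B X)) ω l r ν o ≠ 0

lemma mem_IL' {K7 r β : ℕ} {l : Fin (n+2) → ℕ} : l ∈ IL M B n K7 r β ↔
    (∀ a, l a < M * B) ∧ β * B ≤ l 0 ∧ l 0 + K7 ≤ (β + 1) * B ∧
    ∑ a, l a + r < M * B ∧ M * B ≤ ∑ a, l a + r + (n + 2) := by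
  unfold IL Lbox
  rw [mem_filter, Fintype.mem_piFinset]
  simp only [Finset.mem_range]

/-- the value of `uO` vanishes when the agreement goes further -/
lemma uO_zero {c : Flg q M B n} {X : Fin (n+2) → ℕ → ZMod q} {Y : ℕ → ZMod q} {ω : Pth q B}
    {r r' : ℕ} {l l' : Fin (n+2) → ℕ} {ν : Vec q M B} (h : Agr0 c X Y ω l' r' ν)
    {o : Option (Fin (n+2))} (ho : gg l r o < gg l' r' o) :
    uO c X Y (fun j => row M ω j (xX M B X)) ω l r ν o = 0 := by
  cases o with
  | none =>
    simp only [gg, Option.elim] at ho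
    simp only [uO, Option.elim]
    rw [map_sub, h.2 r ho]
    ring
  | some a =>
    simp only [gg, Option.elim] at ho
    simp only [uO, Option.elim]
    rw [h.1 a (l a) ho]
    ring

/-- two aligned points at levels of small dimension with the same past coincide -/
lemma points_eq {c : Flg q M B n} (hc : IsFlags c) {K7 : ℕ} (hK : n + 2 ≤ K7) {ω : Pth q B}
    (hE : ∀ r ≤ M * B, Exc c ω r) {X : Fin (n+2) → ℕ → ZMod q} {Y : ℕ → ZMod q}
    {r r' β : ℕ} (hβ : β < M) {l l' : Fin (n+2) → ℕ} (hl : l ∈ IL M B n K7 r β)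
    {ν ν' : Vec q M B} (hν : Agr0 c X Y ω l r ν) (hν' : Agr0 c X Y ω l' r' ν')
    (hx : xX M B X - ν ∈ Vb q M B (β+1)) (hx' : xX M B X - ν' ∈ Vb q M B (β+1))
    (hle : ∀ o, o ≠ some 0 → gg l r o ≤ gg l' r' o) : ν = ν' := by
  rw [mem_IL'] at hl
  obtain ⟨h1, h2, h3, h4, h5⟩ := hl
  set W : Fin (n+2) → ℕ := Function.update l 0 ((β+1) * B) with hW
  have hmem : ν - ν' ∈ AA c ω W r := by
    rw [mem_AA]
    refine ⟨fun a j hj => ?_, fun j hj => ?_⟩
    · by_cases ha : a = 0
      · subst ha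
        rw [hW, Function.update_self] at hj
        have hle2 : (β+1) * B ≤ M * B := Nat.mul_le_mul_right _ hβ
        have e1 := hc.zero ⟨j, lt_of_lt_of_le hj hle2⟩ (ν - ν')
        simp only at e1
        rw [e1]
        have h6 := hx ⟨j, lt_of_lt_of_le hj hle2⟩ hj
        have h7 := hx' ⟨j, lt_of_lt_of_le hj hle2⟩ hj
        simp only [Pi.sub_apply] at h6 h7 ⊢
        linear_combination h7 - h6
      · rw [hW, Function.update_of_ne ha] at hj
        have h6 : l a ≤ l' a := hle (some a) (fun h => ha (Option.some_injective _ h))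
        rw [map_sub, hν.1 a j hj, hν'.1 a j (lt_of_lt_of_le hj h6), sub_self]
    · have h6 : r ≤ r' := hle none (by simp)
      rw [map_sub, hν.2 j hj, hν'.2 j (lt_of_lt_of_le hj h6), sub_self]
  have hbot : AA c ω W r = ⊥ := by
    rw [← Submodule.finrank_eq_zero (R := ZMod q), hE r (by omega)]
    unfold dm
    have h6 := Finset.add_sum_erase univ l (mem_univ (0 : Fin (n+2)))
    have h7 : ∑ a, W a = (β+1) * B + ∑ a ∈ univ.erase 0, l a := by
      rw [hW, sum_update_of_mem (mem_univ _), Finset.sdiff_singleton_eq_erase]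
    omega
  rw [hbot, Submodule.mem_bot] at hmem
  exact sub_eq_zero.mp hmem

/-- uniqueness -/
lemma unique_level {c : Flg q M B n} (hc : IsFlags c) {K7 : ℕ} (hK : n + 2 ≤ K7) {ω : Pth q B}
    (hE : ∀ r ≤ M * B, Exc c ω r) {X : Fin (n+2) → ℕ → ZMod q} {Y : ℕ → ZMod q}
    {r r' β : ℕ} (hβ : β < M) {l l' : Fin (n+2) → ℕ} (hl : l ∈ IL M B n K7 r β)
    (hl' : l' ∈ IL M B n K7 r' β) {o : Option (Fin (n+2))} (ho : o ≠ some 0)
    (hN : NCo c X Y ω r β l o) (hN' : NCo c X Y ω r' β l' o)
    (hD : ∑ a, l a + r = ∑ a, l' a + r')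
    (heq : ∀ o', o' ≠ some 0 → o' ≠ o → gg l r o' = gg l' r' o') : r = r' ∧ l = l' := by
  obtain ⟨ν, hν1, hν2, hν3⟩ := hN
  obtain ⟨ν', hν1', hν2', hν3'⟩ := hN'
  have hoeq : gg l r o = gg l' r' o := by
    rcases lt_trichotomy (gg l r o) (gg l' r' o) with h | h | h
    · exfalso
      have h1 : ν = ν' := points_eq hc hK hE hβ hl hν1 hν1' hν2 hν2' (fun o' ho' => by
        by_cases h2 : o' = o
        · subst h2; exact h.le
        · exact (heq o' ho' h2).le)
      rw [h1] at hν3
      exact hν3 (uO_zero hν1' h)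
    · exact h
    · exfalso
      have h1 : ν' = ν := points_eq hc hK hE hβ hl' hν1' hν1 hν2' hν2 (fun o' ho' => by
        by_cases h2 : o' = o
        · subst h2; exact h.le
        · exact (heq o' ho' h2).ge)
      rw [h1] at hν3'
      exact hν3' (uO_zero hν1 h)
  have hall : ∀ o', o' ≠ some 0 → gg l r o' = gg l' r' o' := fun o' ho' => by
    by_cases h2 : o' = o
    · subst h2; exact hoeq
    · exact heq o' ho' h2
  have h0 : gg l r (some 0) = gg l' r' (some 0) := by
    have h1 := Finset.add_sum_erase univ (gg l r) (mem_univ (some (0 : Fin (n+2))))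
    have h2 := Finset.add_sum_erase univ (gg l' r') (mem_univ (some (0 : Fin (n+2))))
    rw [sum_gg] at h1 h2
    have h3 : ∑ x ∈ univ.erase (some (0 : Fin (n+2))), gg l r x =
        ∑ x ∈ univ.erase (some (0 : Fin (n+2))), gg l' r' x :=
      sum_congr rfl fun x hx => hall x (ne_of_mem_erase hx)
    omega
  have hfin : gg l r = gg l' r' := by
    funext o'
    by_cases h : o' = some 0
    · subst h; exact h0
    · exact hall o' h
  exact ⟨congrFun hfin none, funext fun a => congrFun hfin (some a)⟩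

open Classical in
theorem st_C16 : St_C16 := by
  intro n q _ M B c hc K7 hK ω hE X Y
  set S : Finset (Σ _ : ℕ × ℕ, (Fin (n+2) → ℕ)) := (range (M * B) ×ˢ range M).sigma (fun p =>
    (IL M B n K7 p.1 p.2).filter
      (fun l => NCv c X Y (fun j => row M ω j (xX M B X)) ω p.1 p.2 l)) with hS
  have hcard : ∑ r ∈ range (M * B), ∑ β ∈ range M, ((IL M B n K7 r β).filter
      (fun l => NCv c X Y (fun j => row M ω j (xX M B X)) ω r β l)).card = S.card := by
    rw [hS, card_sigma, sum_product]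
  rw [hcard]
  set O : Finset (Option (Fin (n+2))) := univ.erase (some 0) with hO
  have hOc : O.card = n + 2 := by
    rw [hO, card_erase_of_mem (mem_univ _), card_univ, Fintype.card_option, Fintype.card_fin]
    omega
  set So : Option (Fin (n+2)) → Finset (Σ _ : ℕ × ℕ, (Fin (n+2) → ℕ)) := fun o =>
    S.filter (fun t => NCo c X Y ω t.1.1 t.1.2 t.2 o) with hSo
  have hsub : S ⊆ O.biUnion So := by
    intro t ht
    have ht' := ht
    rw [hS, mem_sigma, mem_product, mem_filter, mem_range, mem_range] at ht'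
    obtain ⟨⟨hr, hβ⟩, hl, ν, hν1, hν2, hν3⟩ := ht'
    rw [Function.ne_iff] at hν3
    obtain ⟨o, ho⟩ := hν3
    rw [mem_biUnion]
    refine ⟨o, ?_, ?_⟩
    · rw [hO, mem_erase]
      refine ⟨?_, mem_univ _⟩
      rintro rfl
      apply ho
      rw [mem_IL'] at hl
      simp only [uO, Option.elim, Pi.zero_apply]
      have h1 : t.2 0 < (t.1.2 + 1) * B := by
        have h2 := hl.2.2.1
        omega
      have e1 := hc.zero ⟨t.2 0, hl.1 0⟩ ν
      simp only at e1
      rw [e1]
      have h6 := hν2 ⟨t.2 0, hl.1 0⟩ h1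
      simp only [Pi.sub_apply, xX] at h6
      linear_combination -h6
    · simp only [hSo, mem_filter]
      exact ⟨ht, ν, hν1, hν2, ho⟩
  have hone : ∀ o ∈ O, (So o).card ≤ M * ((n + 2) * (M * B) ^ (n + 1)) := by
    intro o ho
    have ho' : o ≠ some 0 := ne_of_mem_erase ho
    set Tg := range M ×ˢ (range (n + 2) ×ˢ
      Fintype.piFinset (fun _ : {o' : Option (Fin (n+2)) // o' ≠ some 0 ∧ o' ≠ o} =>
        range (M * B))) with hTg
    have hTc : Tg.card = M * ((n + 2) * (M * B) ^ (n + 1)) := by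
      rw [hTg, card_product, card_product, card_range, card_range, Fintype.card_piFinset,
        prod_const, card_range, card_univ]
      congr 3
      rw [Fintype.card_subtype]
      have : (univ.filter (fun o' : Option (Fin (n+2)) => o' ≠ some 0 ∧ o' ≠ o)) =
          (univ.erase (some 0)).erase o := by
        ext o'
        simp only [mem_filter, mem_univ, true_and, mem_erase, and_true]
        tauto
      rw [this, card_erase_of_mem ho, hOc]
      rfl
    rw [← hTc]
    refine card_le_card_of_injOn (fun t => (t.1.2, (M * B - 1 - (∑ a, t.2 a + t.1.1),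
      fun o' => gg t.2 t.1.1 o'.1))) ?_ ?_
    · intro t ht
      rw [mem_coe] at ht
      simp only [hSo, mem_filter, hS, mem_sigma, mem_product, mem_range] at ht
      obtain ⟨⟨⟨hr, hβ⟩, hl, -⟩, -⟩ := ht
      rw [mem_IL'] at hl
      rw [mem_coe, hTg, mem_product, mem_product, mem_range, mem_range, Fintype.mem_piFinset]
      refine ⟨hβ, ?_, ?_⟩
      · simp only
        omega
      · intro o'
        rw [mem_range]
        obtain ⟨o', h1, h2⟩ := o'
        cases o' with
        | none => exact hr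
        | some a => exact hl.1 a
    · intro t ht t' ht' heq
      rw [mem_coe] at ht ht'
      simp only [hSo, mem_filter, hS, mem_sigma, mem_product, mem_range] at ht ht'
      obtain ⟨⟨⟨hr, hβ⟩, hl, -⟩, hN⟩ := ht
      obtain ⟨⟨⟨hr', hβ'⟩, hl', -⟩, hN'⟩ := ht'
      simp only [Prod.mk.injEq] at heq
      obtain ⟨e1, e2, e3⟩ := heq
      obtain ⟨⟨r, β⟩, l⟩ := t
      obtain ⟨⟨r', β'⟩, l'⟩ := t'
      simp only at *
      subst e1
      have hl2 := hl
      have hl2' := hl'
      rw [mem_IL'] at hl2 hl2'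
      have h := unique_level hc hK hE hβ hl hl' ho' hN hN' (by omega) (fun o' h1 h2 =>
        congrFun e3 ⟨o', h1, h2⟩)
      obtain ⟨h1, h2⟩ := h
      subst h1
      subst h2
      rfl
  calc S.card ≤ (O.biUnion So).card := card_le_card hsub
    _ ≤ ∑ o ∈ O, (So o).card := card_biUnion_le
    _ ≤ ∑ o ∈ O, M * ((n + 2) * (M * B) ^ (n + 1)) := sum_le_sum hone
    _ = (n + 2) * (M * ((n + 2) * (M * B) ^ (n + 1))) := by
        rw [sum_const, hOc, smul_eq_mul]
    _ ≤ (n + 2) * (M * ((n + 2) * (M * B + 1) ^ (n + 1))) := by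
        gcongr
        omega
    _ = (n + 2) ^ 2 * (M * (M * B + 1) ^ (n + 1)) := by ring

end Pool.Agent.Y272.SD
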