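import Pool.Agent.Y272.SD.Engine
import Pool.Agent.Y258.SD.CStmts

set_option autoImplicit false

/-! # Job C17 -/

namespace Pool.Agent.Y272.SD

theorem st_C17 : Pool.Agent.Y258.St_C17 := engine

end Pool.Agent.Y272.SD
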