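import Pool.Agent.H470D4.Eng
import Pool.Agent.H470D4.NetA

set_option autoImplicit false

/-! # The truncated exponential martingale engine -/

namespace Pool.Agent.Y272.SD

open Finset Pool.Agent.H470D4

theorem exp_le_quad' {u : ℝ} (hu : |u| ≤ 1) : Real.exp u ≤ 1 + u + u ^ 2 := by
  have h := Real.abs_exp_sub_one_sub_id_le hu
  have := (abs_le.mp h).2
  linarith

theorem depLT_mono {Z α : Type*} [Fintype Z] [DecidableEq Z] {a b : ℕ} {f : (ℕ → Z) → α} (h : DepLT a f) (hab : a ≤ b) :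
    DepLT b f := fun ω ω' h' => h ω ω' (h'.mono hab)

open Classical in
/-- one step of the truncated martingale -/
theorem step_one {Z : Type} [Fintype Z] [DecidableEq Z] (A : Finset Z) (N : ℝ) (hN : 0 < N)
    (hA : N ≤ 2 * A.card) (θ : ℝ) (hθ : 0 < θ) (Y Ξ : Z → ℝ) (b V : ℝ)
    (hY : ∀ z, |Y z| ≤ Ξ z) (hb0 : 0 ≤ b) (hV0 : 0 ≤ V)
    (hV : ∑ z : Z, (Ξ z) ^ 2 ≤ N * V) (hb : |∑ z ∈ A, Y z| ≤ N * b) :
    (∑ z ∈ A, Real.exp (θ * (if θ * Ξ z ≤ 1 then Y z else 0))) / A.card ≤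
      Real.exp (θ * (2 * b + 4 * θ * V)) := by
  have hcard : (0:ℝ) < A.card := by
    by_contra h
    have : (A.card : ℝ) ≤ 0 := not_lt.mp h
    linarith
  have hΞ0 : ∀ z, 0 ≤ Ξ z := fun z => (abs_nonneg _).trans (hY z)
  have hquad : ∀ z, Real.exp (θ * (if θ * Ξ z ≤ 1 then Y z else 0)) ≤
      1 + θ * Y z + (θ ^ 2 * (Ξ z) ^ 2 + θ ^ 2 * (Ξ z) ^ 2) := by
    intro z
    by_cases h : θ * Ξ z ≤ 1
    · rw [if_pos h]
      have h1 : |θ * Y z| ≤ 1 := by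
        rw [abs_mul, abs_of_pos hθ]
        exact (mul_le_mul_of_nonneg_left (hY z) hθ.le).trans h
      have h2 := exp_le_quad' h1
      have h3 : (Y z) ^ 2 ≤ (Ξ z) ^ 2 := by
        rw [← sq_abs (Y z)]
        exact pow_le_pow_left₀ (abs_nonneg _) (hY z) 2
      nlinarith [sq_nonneg θ, sq_nonneg (Ξ z), mul_nonneg (sq_nonneg θ) (sq_nonneg (Ξ z)),
        mul_le_mul_of_nonneg_left h3 (sq_nonneg θ)]
    · rw [if_neg h, mul_zero, Real.exp_zero]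
      have h' : 1 < θ * Ξ z := not_le.mp h
      have h1 := (abs_le.mp (hY z)).1
      have h2 : θ * Ξ z ≤ θ ^ 2 * (Ξ z) ^ 2 := by nlinarith
      have h3 : - (θ * Ξ z) ≤ θ * Y z := by nlinarith
      nlinarith [mul_nonneg (sq_nonneg θ) (sq_nonneg (Ξ z))]
  have hsum : ∑ z ∈ A, Real.exp (θ * (if θ * Ξ z ≤ 1 then Y z else 0)) ≤
      A.card + θ * (N * b) + 2 * θ ^ 2 * (N * V) := by
    calc ∑ z ∈ A, Real.exp (θ * (if θ * Ξ z ≤ 1 then Y z else 0))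
        ≤ ∑ z ∈ A, (1 + θ * Y z + (θ ^ 2 * (Ξ z) ^ 2 + θ ^ 2 * (Ξ z) ^ 2)) :=
          sum_le_sum fun z _ => hquad z
      _ = A.card + θ * ∑ z ∈ A, Y z + 2 * θ ^ 2 * ∑ z ∈ A, (Ξ z) ^ 2 := by
          simp only [sum_add_distrib, ← mul_sum, sum_const, nsmul_eq_mul, mul_one]
          ring
      _ ≤ A.card + θ * (N * b) + 2 * θ ^ 2 * (N * V) := by
          have h1 : ∑ z ∈ A, (Ξ z) ^ 2 ≤ N * V :=
            (sum_le_sum_of_subset_of_nonneg (subset_univ A) fun z _ _ => sq_nonneg _).trans hV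
          have h2 : ∑ z ∈ A, Y z ≤ N * b := (le_abs_self _).trans hb
          have h3 : 0 ≤ 2 * θ ^ 2 := by positivity
          have := mul_le_mul_of_nonneg_left h1 h3
          have := mul_le_mul_of_nonneg_left h2 hθ.le
          linarith
  have hdiv : (∑ z ∈ A, Real.exp (θ * (if θ * Ξ z ≤ 1 then Y z else 0))) / A.card ≤
      θ * (2 * b + 4 * θ * V) + 1 := by
    rw [div_le_iff₀ hcard]
    refine hsum.trans ?_
    have h1 : θ * (N * b) ≤ θ * (2 * A.card * b) :=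
      mul_le_mul_of_nonneg_left (mul_le_mul_of_nonneg_right hA hb0) hθ.le
    have h2 : 2 * θ ^ 2 * (N * V) ≤ 2 * θ ^ 2 * (2 * A.card * V) :=
      mul_le_mul_of_nonneg_left (mul_le_mul_of_nonneg_right hA hV0) (by positivity)
    nlinarith
  exact hdiv.trans (Real.add_one_le_exp _)

open Classical in
theorem engine (Z : Type) [Fintype Z] [DecidableEq Z]
    (Al : ℕ → (ℕ → Z) → Finset Z) (T : ℕ) (N : ℝ) (hZN : (Fintype.card Z : ℝ) = N)
    (hAl : ∀ j ω, N ≤ 2 * (Al j ω).card) (hN : 0 < N) (hdep : ∀ j, DepLT j (Al j))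
    (Δ : Type) [Fintype Δ] [Nonempty Δ] (θ : ℝ) (hθ : 0 < θ)
    (Y : Δ → ℕ → (ℕ → Z) → ℝ) (Ξ : ℕ → (ℕ → Z) → ℝ) (G : ℕ → (ℕ → Z) → Prop)
    (b : Δ → ℕ → (ℕ → Z) → ℝ) (V : ℕ → (ℕ → Z) → ℝ) (P : (ℕ → Z) → ℝ)
    (hYd : ∀ δ j, DepLT (j+1) (Y δ j)) (hΞd : ∀ j, DepLT (j+1) (Ξ j)) (hGd : ∀ j, DepLT j (G j))
    (hbd : ∀ δ j, DepLT j (b δ j)) (hVd : ∀ j, DepLT j (V j))
    (hY : ∀ δ j ω, |Y δ j ω| ≤ Ξ j ω) (hb0 : ∀ δ j ω, 0 ≤ b δ j ω) (hV0 : ∀ j ω, 0 ≤ V j ω)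
    (hV : ∀ j < T, ∀ ω, G j ω → ∑ z : Z, (Ξ j (Function.update ω j z)) ^ 2 ≤ N * V j ω)
    (hb : ∀ δ, ∀ j < T, ∀ ω, G j ω →
      |∑ z ∈ Al j ω, Y δ j (Function.update ω j z)| ≤ N * b δ j ω)
    (hP0 : ∀ ω, 0 ≤ P ω) (hP : ∀ ω₀, EE Al 0 T P ω₀ ≤ 1 / 4) :
    ∃ ω : ℕ → Z, (∀ j < T, ω j ∈ Al j ω) ∧ P ω < 1 ∧ ∀ δ : Δ,
      |∑ j ∈ range T, ii (G j ω) * Y δ j ω| ≤
        ∑ j ∈ range T, ii (G j ω) * (2 * b δ j ω + 4 * θ * V j ω + θ * (Ξ j ω) ^ 2) +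
          Real.log (8 * Fintype.card Δ) / θ := by
  have hne : ∀ j ω, (Al j ω).Nonempty := by
    intro j ω
    rw [← card_pos]
    have h := hAl j ω
    by_contra h0
    have h1 : (Al j ω).card = 0 := by omega
    rw [h1] at h
    norm_num at h
    linarith
  have hcardZ : 0 < Fintype.card Z := by
    rw [← hZN] at hN
    exact_mod_cast hN
  have : Nonempty Z := Fintype.card_pos_iff.mp hcardZ
  obtain ⟨z₀⟩ := this
  -- truncations
  set y : Δ → ℕ → (ℕ → Z) → ℝ := fun δ j ω =>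
    if G j ω then (if θ * Ξ j ω ≤ 1 then Y δ j ω else 0) else 0 with hy
  set κ : Δ → ℕ → (ℕ → Z) → ℝ := fun δ j ω =>
    if G j ω then 2 * b δ j ω + 4 * θ * V j ω else 0 with hκ
  have hyd : ∀ δ j, DepLT (j+1) (y δ j) := by
    intro δ j ω ω' h
    simp only [hy]
    rw [depLT_mono (hGd j) (Nat.le_succ j) ω ω' h, hYd δ j ω ω' h, hΞd j ω ω' h]
  have hyd' : ∀ δ j, DepLT (j+1) (fun ω => - y δ j ω) := by
    intro δ j ω ω' h
    simp only
    rw [hyd δ j ω ω' h]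
  have hκd : ∀ δ j, DepLT j (κ δ j) := by
    intro δ j ω ω' h
    simp only [hκ]
    rw [hGd j ω ω' h, hbd δ j ω ω' h, hVd j ω ω' h]
  have hstep : ∀ δ, ∀ j < T, ∀ ω,
      E1 Al j (fun ω' => Real.exp (θ * y δ j ω')) ω ≤ Real.exp (θ * κ δ j ω) := by
    intro δ j hj ω
    unfold E1
    have hGu : ∀ z, G j (Function.update ω j z) = G j ω := fun z =>
      (hGd j _ _ (agr_update j ω z)).symm
    simp only [hy, hκ, hGu]
    by_cases hG : G j ω
    · simp only [if_pos hG]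
      exact step_one (Al j ω) N hN (hAl j ω) θ hθ (fun z => Y δ j (Function.update ω j z))
        (fun z => Ξ j (Function.update ω j z)) (b δ j ω) (V j ω) (fun z => hY δ j _)
        (hb0 δ j ω) (hV0 j ω) (hV j hj ω hG) (hb δ j hj ω hG)
    · simp only [if_neg hG, mul_zero, Real.exp_zero, sum_const, nsmul_eq_mul, mul_one]
      have : ((Al j ω).card : ℝ) ≠ 0 := by exact_mod_cast (card_pos.mpr (hne j ω)).ne'
      rw [div_self this]
  have hstep' : ∀ δ, ∀ j < T, ∀ ω,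
      E1 Al j (fun ω' => Real.exp (θ * (- y δ j ω'))) ω ≤ Real.exp (θ * κ δ j ω) := by
    intro δ j hj ω
    unfold E1
    have hGu : ∀ z, G j (Function.update ω j z) = G j ω := fun z =>
      (hGd j _ _ (agr_update j ω z)).symm
    simp only [hy, hκ, hGu]
    by_cases hG : G j ω
    · simp only [if_pos hG]
      have := step_one (Al j ω) N hN (hAl j ω) θ hθ (fun z => - Y δ j (Function.update ω j z))
        (fun z => Ξ j (Function.update ω j z)) (b δ j ω) (V j ω)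
        (fun z => by rw [abs_neg]; exact hY δ j _)
        (hb0 δ j ω) (hV0 j ω) (hV j hj ω hG) (by
          rw [sum_neg_distrib, abs_neg]; exact hb δ j hj ω hG)
      refine le_trans (le_of_eq ?_) this
      congr 1
      refine sum_congr rfl fun z _ => ?_
      congr 2
      split_ifs <;> simp
    · simp only [if_neg hG, mul_zero, neg_zero, Real.exp_zero, sum_const, nsmul_eq_mul, mul_one]
      have : ((Al j ω).card : ℝ) ≠ 0 := by exact_mod_cast (card_pos.mpr (hne j ω)).ne'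
      rw [div_self this]
  have hcΔ : (0:ℝ) < Fintype.card Δ := by exact_mod_cast Fintype.card_pos
  -- the functional
  set EP : Δ → (ℕ → Z) → ℝ := fun δ ω =>
    Real.exp (θ * ∑ j ∈ range T, (y δ j ω - κ δ j ω)) with hEP
  set EM : Δ → (ℕ → Z) → ℝ := fun δ ω =>
    Real.exp (θ * ∑ j ∈ range T, ((- y δ j ω) - κ δ j ω)) with hEM
  have h1 : ∀ δ ω₀, EE Al 0 T (EP δ) ω₀ ≤ 1 := fun δ ω₀ =>
    EE_exp Al hne T θ (y δ) (κ δ) (hyd δ) (hκd δ) (hstep δ) ω₀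
  have h2 : ∀ δ ω₀, EE Al 0 T (EM δ) ω₀ ≤ 1 := fun δ ω₀ =>
    EE_exp Al hne T θ (fun j ω => - y δ j ω) (κ δ) (hyd' δ) (hκd δ) (hstep' δ) ω₀
  set ω₀ : ℕ → Z := fun _ => z₀
  obtain ⟨ω, -, hω1, hω2⟩ := exists_path Al hne hdep 0 T
    (fun ω => P ω + (1 / (8 * (Fintype.card Δ : ℝ))) * ∑ δ : Δ, (EP δ ω + EM δ ω)) ω₀
  have h3 : EE Al 0 T (fun ω => P ω + (1 / (8 * (Fintype.card Δ : ℝ))) *
      ∑ δ : Δ, (EP δ ω + EM δ ω)) ω₀ ≤ 1 / 2 := by
    rw [EE_add_fun, EE_const_mul, EE_sum]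
    have h4 : ∑ δ : Δ, EE Al 0 T (fun ω => EP δ ω + EM δ ω) ω₀ ≤ ∑ δ : Δ, 2 := by
      refine sum_le_sum fun δ _ => ?_
      rw [EE_add_fun]
      linarith [h1 δ ω₀, h2 δ ω₀]
    rw [sum_const, nsmul_eq_mul, card_univ] at h4
    have h5 : (1 / (8 * (Fintype.card Δ : ℝ))) *
        ∑ δ : Δ, EE Al 0 T (fun ω => EP δ ω + EM δ ω) ω₀ ≤
        (1 / (8 * (Fintype.card Δ : ℝ))) * ((Fintype.card Δ : ℝ) * 2) :=
      mul_le_mul_of_nonneg_left h4 (by positivity)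
    have h6 : (1 / (8 * (Fintype.card Δ : ℝ))) * ((Fintype.card Δ : ℝ) * 2) = 1 / 4 := by
      field_simp
      norm_num
    have h7 := hP ω₀
    linarith
  have h8 := hω2.trans h3
  have hEP0 : ∀ δ, 0 < EP δ ω := fun δ => Real.exp_pos _
  have hEM0 : ∀ δ, 0 < EM δ ω := fun δ => Real.exp_pos _
  have h9 : 0 ≤ ∑ δ : Δ, (EP δ ω + EM δ ω) :=
    sum_nonneg fun δ _ => (add_pos (hEP0 δ) (hEM0 δ)).le
  have h10 : 0 ≤ (1 / (8 * (Fintype.card Δ : ℝ))) * ∑ δ : Δ, (EP δ ω + EM δ ω) :=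
    mul_nonneg (by positivity) h9
  refine ⟨ω, fun j hj => hω1 j (Nat.zero_le _) (by omega), by linarith, fun δ => ?_⟩
  have h11 : EP δ ω + EM δ ω ≤ 4 * Fintype.card Δ := by
    have h12 : EP δ ω + EM δ ω ≤ ∑ δ : Δ, (EP δ ω + EM δ ω) :=
      single_le_sum (f := fun δ => EP δ ω + EM δ ω)
        (fun δ _ => (add_pos (hEP0 δ) (hEM0 δ)).le) (mem_univ δ)
    have h13 : (1 / (8 * (Fintype.card Δ : ℝ))) * ∑ δ : Δ, (EP δ ω + EM δ ω) ≤ 1 / 2 := by
      have := hP0 ω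
      linarith
    rw [one_div, inv_mul_le_iff₀ (by positivity)] at h13
    linarith
  have hlog : ∀ u : ℝ, Real.exp (θ * u) ≤ 4 * Fintype.card Δ →
      u ≤ Real.log (8 * Fintype.card Δ) / θ := by
    intro u hu
    rw [le_div_iff₀ hθ, mul_comm]
    have h14 : Real.exp (θ * u) ≤ 8 * Fintype.card Δ := by linarith
    rw [← Real.log_exp (θ * u)]
    exact Real.log_le_log (Real.exp_pos _) h14
  have h15 := hlog _ ((le_add_of_nonneg_right (hEM0 δ).le).trans h11)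
  have h16 := hlog _ ((le_add_of_nonneg_left (hEP0 δ).le).trans h11)
  rw [sum_sub_distrib] at h15 h16
  rw [sum_neg_distrib] at h16
  have h17 : |∑ j ∈ range T, ii (G j ω) * Y δ j ω - ∑ j ∈ range T, y δ j ω| ≤
      ∑ j ∈ range T, ii (G j ω) * (θ * (Ξ j ω) ^ 2) := by
    rw [← sum_sub_distrib]
    refine (abs_sum_le_sum_abs _ _).trans (sum_le_sum fun j _ => ?_)
    simp only [hy]
    have hΞ0 : 0 ≤ Ξ j ω := (abs_nonneg _).trans (hY δ j ω)
    by_cases hG : G j ω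
    · rw [if_pos hG, ii_true hG, one_mul, one_mul]
      by_cases h : θ * Ξ j ω ≤ 1
      · rw [if_pos h, sub_self, abs_zero]
        positivity
      · rw [if_neg h, sub_zero]
        have h' : 1 < θ * Ξ j ω := not_le.mp h
        have := hY δ j ω
        nlinarith
    · rw [if_neg hG, ii_false hG]
      simp
  have h18 : ∑ j ∈ range T, ii (G j ω) * (2 * b δ j ω + 4 * θ * V j ω + θ * (Ξ j ω) ^ 2) =
      ∑ j ∈ range T, κ δ j ω + ∑ j ∈ range T, ii (G j ω) * (θ * (Ξ j ω) ^ 2) := by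
    rw [← sum_add_distrib]
    refine sum_congr rfl fun j _ => ?_
    simp only [hκ]
    by_cases hG : G j ω
    · rw [if_pos hG, ii_true hG]; ring
    · rw [if_neg hG, ii_false hG]; ring
  rw [h18]
  have h19 := abs_le.mp h17
  rw [abs_le]
  constructor <;> linarith [h19.1, h19.2]

end Pool.Agent.Y272.SD
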